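import Pool.Agent.Helper575.NP15

open MeasureTheory Set Filter Topology
open scoped ENNReal

namespace Pool.Agent.T2H59.FM

open Helper575.NP

/-- translate of a set -/
def Sh (Ω : Set ℝ) (t : ℝ) : Set ℝ := {p | p - t ∈ Ω}

lemma Sh_meas {Ω : Set ℝ} (hΩ : MeasurableSet Ω) (t : ℝ) : MeasurableSet (Sh Ω t) :=
  (measurable_id.sub_const t) hΩ

/-- autocorrelation -/
noncomputable def gam (Ω : Set ℝ) (t : ℝ) : ℝ≥0∞ := volume (Ω ∩ Sh Ω t)

lemma vol_Sh (Ω : Set ℝ) (t : ℝ) : volume (Sh Ω t) = volume Ω := by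
  have := measure_preimage_add_right volume (-t) Ω
  rw [← this]; congr 1

lemma vol_Sh_inter (Ω : Set ℝ) (s t : ℝ) : volume (Sh Ω s ∩ Sh Ω t) = gam Ω (t - s) := by
  unfold gam
  rw [← measure_preimage_add_right volume s (Sh Ω s ∩ Sh Ω t)]
  congr 1
  ext y
  simp only [Sh, mem_preimage, mem_inter_iff, mem_ofPred_eq, add_sub_cancel_right]
  rw [show y + s - t = y - (t - s) by ring]

lemma gam_neg (Ω : Set ℝ) (t : ℝ) : gam Ω (-t) = gam Ω t := by
  have h1 := vol_Sh_inter Ω t 0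
  have h2 := vol_Sh_inter Ω 0 t
  rw [inter_comm] at h1
  rw [h1] at h2
  simpa using h2

lemma gam_comm (Ω : Set ℝ) (s t : ℝ) : gam Ω (s - t) = gam Ω (t - s) := by
  rw [← gam_neg]; congr 1; ring

lemma gam_le (Ω : Set ℝ) (t : ℝ) : gam Ω t ≤ volume Ω := measure_mono inter_subset_left

/-- the weighted correlation -/
noncomputable def JJ (Ω : Set ℝ) (t : ℝ) : ℝ := ∫ p in Ω ∩ Sh Ω t, Real.arctan p

/-- the odd kernel -/
noncomputable def KR (Ω : Set ℝ) (t : ℝ) : ℝ :=
  ∫ p in Ω ∩ Sh Ω t, (Real.arctan p - Real.arctan (p - t))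

variable {Ω : Set ℝ}

lemma intble {s : Set ℝ} (hs : volume s < ⊤) {f : ℝ → ℝ} (hf : Continuous f) {C : ℝ}
    (hb : ∀ x, |f x| ≤ C) : IntegrableOn f s := by
  have : IsFiniteMeasure (volume.restrict s) := ⟨by rwa [Measure.restrict_apply_univ]⟩
  exact Integrable.of_bound hf.aestronglyMeasurable C (Eventually.of_forall hb)

lemma arctan_abs (x : ℝ) : |Real.arctan x| ≤ 2 := by
  rw [abs_le]
  have h1 := Real.arctan_lt_pi_div_two x
  have h2 := Real.neg_pi_div_two_lt_arctan x
  have h3 := Real.pi_lt_four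
  constructor <;> linarith

lemma KR_eq (h1 : volume Ω < ⊤) (t : ℝ) : KR Ω t = JJ Ω t - JJ Ω (-t) := by
  unfold KR JJ
  have hv : volume (Ω ∩ Sh Ω t) < ⊤ := lt_of_le_of_lt (measure_mono inter_subset_left) h1
  have hg : IntegrableOn (fun p : ℝ => Real.arctan (p - t)) (Ω ∩ Sh Ω t) :=
    intble hv (Real.continuous_arctan.comp (continuous_id.sub continuous_const))
      (fun x => arctan_abs _)
  rw [integral_sub (intble hv Real.continuous_arctan arctan_abs) hg]
  congr 1
  have mp : MeasurePreserving (fun p : ℝ => p + (-t)) volume volume :=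
    measurePreserving_add_right volume (-t)
  have := mp.setIntegral_preimage_emb (MeasurableEquiv.addRight (-t)).measurableEmbedding
    (fun q => Real.arctan q) (Ω ∩ Sh Ω (-t))
  rw [← this]
  have e : (fun p : ℝ => p + -t) ⁻¹' (Ω ∩ Sh Ω (-t)) = Ω ∩ Sh Ω t := by
    ext y
    simp only [Sh, mem_preimage, mem_inter_iff, mem_ofPred_eq]
    rw [show y + -t - -t = y by ring, show y + -t = y - t by ring]
    exact and_comm
  rw [e]
  rfl

lemma KR_odd (h1 : volume Ω < ⊤) (t : ℝ) : KR Ω (-t) = - KR Ω t := by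
  rw [KR_eq h1, KR_eq h1, neg_neg]; ring

lemma KR_nonneg (hΩ : MeasurableSet Ω) {t : ℝ} (ht : 0 ≤ t) : 0 ≤ KR Ω t := by
  apply setIntegral_nonneg (hΩ.inter (Sh_meas hΩ t))
  intro x _
  exact sub_nonneg.2 (Real.arctan_strictMono.monotone (by linarith))

lemma KR_zero (h1 : volume Ω < ⊤) {t : ℝ} (ht : 0 < t)
    (h : KR Ω t = 0) : gam Ω t = 0 := by
  have hv : volume (Ω ∩ Sh Ω t) < ⊤ := lt_of_le_of_lt (measure_mono inter_subset_left) h1
  unfold KR at h
  have hpos : ∀ x : ℝ, 0 < Real.arctan x - Real.arctan (x - t) := fun x =>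
    sub_pos.2 (Real.arctan_strictMono (by linarith))
  rw [integral_eq_zero_iff_of_nonneg (fun x => (hpos x).le)] at h
  · have h2 : ∀ᵐ x ∂(volume.restrict (Ω ∩ Sh Ω t)), False := by
      filter_upwards [h] with x hx
      have := hpos x
      simp only [Pi.zero_apply] at hx
      linarith
    rw [eventually_false_iff_eq_bot, ae_eq_bot, Measure.restrict_eq_zero] at h2
    exact h2
  · exact (intble hv Real.continuous_arctan arctan_abs).sub
      (intble hv (Real.continuous_arctan.comp (continuous_id.sub continuous_const))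
      (fun x => arctan_abs _))

lemma KR_abs (h1 : volume Ω < ⊤) (t : ℝ) : |KR Ω t| ≤ 4 * (gam Ω t).toReal := by
  have hv : volume (Ω ∩ Sh Ω t) < ⊤ := lt_of_le_of_lt (measure_mono inter_subset_left) h1
  have := norm_setIntegral_le_of_norm_le_const (μ := volume) (s := Ω ∩ Sh Ω t) (C := 4)
    (f := fun p => Real.arctan p - Real.arctan (p - t)) hv (fun x _ => by
      rw [Real.norm_eq_abs]
      refine (abs_sub _ _).trans ?_
      linarith [arctan_abs x, arctan_abs (x - t)])
  exact this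

/-- sums of the weighted correlation over a measure partition -/
lemma JJ_sum (hΩ : MeasurableSet Ω) (h1 : volume Ω < ⊤) {s : ℤ → ℝ}
    (hd : ∀ n m, n ≠ m → gam Ω (s m - s n) = 0) (hs : ∑' n, gam Ω (s n) = volume Ω) :
    HasSum (fun n => JJ Ω (s n)) (∫ p in Ω, Real.arctan p) := by
  have hms : ∀ n, MeasurableSet (Ω ∩ Sh Ω (s n)) := fun n => hΩ.inter (Sh_meas hΩ _)
  have hdis : Pairwise (Function.onFun (AEDisjoint volume) fun n => Ω ∩ Sh Ω (s n)) := by
    intro n m hnm
    show volume _ = 0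
    refine measure_mono_null ?_ ((vol_Sh_inter Ω (s n) (s m)).trans (hd n m hnm))
    rintro x ⟨⟨_, hx⟩, ⟨_, hx'⟩⟩
    exact ⟨hx, hx'⟩
  have hU : (⋃ n, Ω ∩ Sh Ω (s n) : Set ℝ) =ᵐ[volume] Ω := by
    apply ae_eq_of_subset_of_measure_ge
    · exact iUnion_subset fun n => inter_subset_left
    · rw [measure_iUnion₀ hdis (fun n => (hms n).nullMeasurableSet)]
      exact hs.ge
    · exact (MeasurableSet.iUnion hms).nullMeasurableSet
    · exact h1.ne
  have hint : IntegrableOn Real.arctan (⋃ n, Ω ∩ Sh Ω (s n)) := by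
    apply intble _ Real.continuous_arctan arctan_abs
    exact lt_of_le_of_lt (measure_mono (iUnion_subset fun n => inter_subset_left)) h1
  have := hasSum_integral_iUnion_ae (fun n => (hms n).nullMeasurableSet) hdis hint
  rw [setIntegral_congr_set hU] at this
  exact this

/-- a sequence of translates tiling at level one, almost everywhere -/
def Til (Ω : Set ℝ) (l : ℤ → ℝ) : Prop := mult Ω l =ᵐ[volume] fun _ => (1:ℝ≥0∞)

lemma Til_of_T1 {l : ℤ → ℝ} (hl : Function.Injective l) (h : T1 Ω (range l)) : Til Ω l := by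
  filter_upwards [h] with x hx
  rw [mult_eq hl, hx]
  simp

lemma Til.sum_inter (hΩ : MeasurableSet Ω) {l : ℤ → ℝ} (h : Til Ω l) {A : Set ℝ}
    (hA : MeasurableSet A) : ∑' n, volume (Sh Ω (l n) ∩ A) = volume A := by
  have h2 := setLIntegral_mult hΩ l hA
  rw [lintegral_congr_ae (ae_restrict_of_ae h), setLIntegral_const, one_mul] at h2
  rw [h2]
  congr 1
  funext n
  have m1 : MeasurableSet ((fun y : ℝ => y + l n) ⁻¹' A) := (measurable_id.add_const _) hA
  rw [Measure.restrict_apply m1, ← measure_preimage_add_right volume (l n) (Sh Ω (l n) ∩ A)]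
  congr 1
  ext y
  simp only [Sh, mem_preimage, mem_inter_iff, mem_ofPred_eq, add_sub_cancel_right]
  exact and_comm

lemma Til.disj (hΩ : MeasurableSet Ω) (h1 : volume Ω < ⊤) {l : ℤ → ℝ} (h : Til Ω l) {n m : ℤ}
    (hnm : n ≠ m) : gam Ω (l m - l n) = 0 := by
  have h2 := h.sum_inter hΩ (Sh_meas hΩ (l n))
  rw [vol_Sh] at h2
  have h3 : ∑ k ∈ ({n, m} : Finset ℤ), volume (Sh Ω (l k) ∩ Sh Ω (l n)) ≤ volume Ω := by
    rw [← h2]; exact ENNReal.sum_le_tsum _
  rw [Finset.sum_pair hnm, inter_self, vol_Sh, vol_Sh_inter, gam_comm] at h3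
  by_contra hne
  have : volume Ω < volume Ω + gam Ω (l m - l n) := ENNReal.lt_add_right h1.ne hne
  exact absurd h3 (not_le.2 this)

lemma Til.sum_gam (hΩ : MeasurableSet Ω) {l : ℤ → ℝ} (h : Til Ω l) (c : ℝ) :
    ∑' n, gam Ω (l n - c) = volume Ω := by
  have h2 := h.sum_inter hΩ (Sh_meas hΩ c)
  rw [vol_Sh] at h2
  rw [← h2]
  congr 1
  funext n
  rw [vol_Sh_inter, gam_comm]

lemma Til.sum_KR (hΩ : MeasurableSet Ω) (h1 : volume Ω < ⊤) {l : ℤ → ℝ} (h : Til Ω l) (c : ℝ) :
    HasSum (fun n => KR Ω (l n - c)) 0 := by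
  have h2 := JJ_sum hΩ h1 (s := fun n => l n - c) (fun n m hnm => by
    have := h.disj hΩ h1 hnm
    rw [show l m - c - (l n - c) = l m - l n by ring]; exact this) (h.sum_gam hΩ c)
  have h3 := JJ_sum hΩ h1 (s := fun n => -(l n - c)) (fun n m hnm => by
    have := h.disj hΩ h1 hnm.symm
    rw [show -(l m - c) - -(l n - c) = l n - l m by ring]; exact this) (by
      rw [← h.sum_gam hΩ c]; congr 1; funext n; exact gam_neg _ _)
  have h4 := h2.sub h3
  rw [sub_self] at h4
  refine h4.congr_fun ?_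
  intro n
  exact KR_eq h1 _

end Pool.Agent.T2H59.FM
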