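import Mathlib

open MeasureTheory Set Filter Topology
open scoped ENNReal

namespace Pool.Agent.T2H59.FM

/-- cut coefficient -/
noncomputable def cf (a b : ℤ) (p : ℤ × ℤ) : ℝ :=
  (if p.1 < a then 1 else 0) - (if p.2 < b then 1 else 0)

section
variable {k : ℤ → ℤ → ℝ}

lemma hasSum_row {f : ℤ → ℝ} {s : ℝ} (hf : HasSum f s) (a : ℤ) :
    HasSum (fun p : ℤ × ℤ => if p.1 = a then f p.2 else 0) s := by
  have hi : Function.Injective (fun m : ℤ => ((a, m) : ℤ × ℤ)) := fun x y h => by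
    simpa using h
  rw [← hi.hasSum_iff]
  · simpa [Function.comp_def] using hf
  · rintro ⟨x, y⟩ hxy
    have : x ≠ a := by
      rintro rfl
      exact hxy ⟨y, rfl⟩
    simp [this]

lemma hasSum_col {f : ℤ → ℝ} {s : ℝ} (hf : HasSum f s) (b : ℤ) :
    HasSum (fun p : ℤ × ℤ => if p.2 = b then f p.1 else 0) s := by
  have hi : Function.Injective (fun m : ℤ => ((m, b) : ℤ × ℤ)) := fun x y h => by
    simpa using h
  rw [← hi.hasSum_iff]
  · simpa [Function.comp_def] using hf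
  · rintro ⟨x, y⟩ hxy
    have : y ≠ b := by
      rintro rfl
      exact hxy ⟨x, rfl⟩
    simp [this]

lemma P_stepa (hrow : ∀ n, HasSum (fun m => k n m) 0)
    (hs : ∀ a b, Summable (fun p : ℤ × ℤ => cf a b p * k p.1 p.2)) (a b : ℤ) :
    ∑' p : ℤ × ℤ, cf (a+1) b p * k p.1 p.2 = ∑' p : ℤ × ℤ, cf a b p * k p.1 p.2 := by
  have h1 := (hs (a+1) b).hasSum.sub (hs a b).hasSum
  have h2 := hasSum_row (hrow a) a
  have h3 : (fun p : ℤ × ℤ => cf (a+1) b p * k p.1 p.2 - cf a b p * k p.1 p.2) =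
      fun p : ℤ × ℤ => if p.1 = a then k a p.2 else 0 := by
    funext p
    unfold cf
    by_cases h : p.1 = a
    · rw [h]
      simp only [lt_self_iff_false, if_false, if_true, show a < a + 1 by omega]
      ring
    · have : p.1 < a + 1 ↔ p.1 < a := by omega
      simp [h, this]
  rw [h3] at h1
  have := h1.unique h2
  linarith

lemma P_stepb (hcol : ∀ m, HasSum (fun n => k n m) 0)
    (hs : ∀ a b, Summable (fun p : ℤ × ℤ => cf a b p * k p.1 p.2)) (a b : ℤ) :
    ∑' p : ℤ × ℤ, cf a (b+1) p * k p.1 p.2 = ∑' p : ℤ × ℤ, cf a b p * k p.1 p.2 := by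
  have h1 := (hs a b).hasSum.sub (hs a (b+1)).hasSum
  have h2 := hasSum_col (hcol b) b
  have h3 : (fun p : ℤ × ℤ => cf a b p * k p.1 p.2 - cf a (b+1) p * k p.1 p.2) =
      fun p : ℤ × ℤ => if p.2 = b then k p.1 b else 0 := by
    funext p
    unfold cf
    by_cases h : p.2 = b
    · rw [h]
      simp only [lt_self_iff_false, if_false, if_true, show b < b + 1 by omega]
      ring
    · have : p.2 < b + 1 ↔ p.2 < b := by omega
      simp [h, this]
  rw [h3] at h1
  have := h1.unique h2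
  linarith

theorem P_const (hrow : ∀ n, HasSum (fun m => k n m) 0) (hcol : ∀ m, HasSum (fun n => k n m) 0)
    (hs : ∀ a b, Summable (fun p : ℤ × ℤ => cf a b p * k p.1 p.2)) (a b : ℤ) :
    ∑' p : ℤ × ℤ, cf a b p * k p.1 p.2 = ∑' p : ℤ × ℤ, cf 0 0 p * k p.1 p.2 := by
  have h1 : ∀ a b, ∑' p : ℤ × ℤ, cf a b p * k p.1 p.2 =
      ∑' p : ℤ × ℤ, cf 0 b p * k p.1 p.2 := by
    intro a b
    induction a using Int.induction_on with
    | zero => rfl
    | succ i ih => rw [P_stepa hrow hs, ih]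
    | pred i ih =>
      have := P_stepa hrow hs (-(i:ℤ) - 1) b
      rw [sub_add_cancel] at this
      rw [← this, ih]
  have h2 : ∀ b, ∑' p : ℤ × ℤ, cf 0 b p * k p.1 p.2 =
      ∑' p : ℤ × ℤ, cf 0 0 p * k p.1 p.2 := by
    intro b
    induction b using Int.induction_on with
    | zero => rfl
    | succ i ih => rw [P_stepb hcol hs, ih]
    | pred i ih =>
      have := P_stepb hcol hs 0 (-(i:ℤ) - 1)
      rw [sub_add_cancel] at this
      rw [← this, ih]
  rw [h1, h2]

end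

/-- tail function -/
noncomputable def tau (Ω : Set ℝ) (r s : ℝ) : ℝ≥0∞ :=
  ∑' j : ℕ, volume (Ω ∩ {x | s + r * j ≤ |x|})

lemma tau_anti (Ω : Set ℝ) (r : ℝ) {s s' : ℝ} (h : s ≤ s') : tau Ω r s' ≤ tau Ω r s := by
  apply ENNReal.tsum_le_tsum
  intro j
  apply measure_mono
  rintro x ⟨hx, hx'⟩
  have h2 : s' + r * j ≤ |x| := hx'
  exact ⟨hx, le_trans (by linarith) h2⟩

lemma tau_fin {Ω : Set ℝ} (h1 : volume Ω < ⊤)
    (hm : IntegrableOn (fun x : ℝ => |x|) Ω) {r : ℝ} (hr : 0 < r) (s : ℝ) : tau Ω r s ≠ ⊤ := by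
  have hms : ∀ j : ℕ, MeasurableSet {x : ℝ | s + r * j ≤ |x|} := fun j =>
    measurableSet_le measurable_const (measurable_id.abs)
  have h2 : tau Ω r s = ∫⁻ x in Ω, ∑' j : ℕ, {x : ℝ | s + r * j ≤ |x|}.indicator
      (fun _ => (1:ℝ≥0∞)) x := by
    rw [lintegral_tsum (fun j => (measurable_const.indicator (hms j)).aemeasurable)]
    unfold tau
    congr 1
    funext j
    rw [lintegral_indicator_const (hms j), one_mul, Measure.restrict_apply (hms j), inter_comm]
  have h3 : ∀ x : ℝ, ∑' j : ℕ, {x : ℝ | s + r * j ≤ |x|}.indicator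
      (fun _ => (1:ℝ≥0∞)) x ≤ ENNReal.ofReal (|x| / r + (|s| / r + 1)) := by
    intro x
    set N := ⌊(|x| + |s|) / r⌋₊ with hN
    have h4 : ∀ j : ℕ, j ∉ Finset.range (N + 1) → {x : ℝ | s + r * j ≤ |x|}.indicator
      (fun _ => (1:ℝ≥0∞)) x = 0 := by
      intro j hj
      rw [Finset.mem_range, not_lt] at hj
      apply indicator_of_notMem
      intro hx
      have hx : s + r * j ≤ |x| := hx
      have h5 : (j:ℝ) ≤ (|x| + |s|) / r := by
        rw [le_div_iff₀ hr]
        have := neg_abs_le s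
        nlinarith
      have h6 : j ≤ N := Nat.le_floor h5
      omega
    rw [tsum_eq_sum h4]
    calc (∑ j ∈ Finset.range (N + 1), ({x : ℝ | s + r * j ≤ |x|}.indicator
      (fun _ => (1:ℝ≥0∞)) x)) ≤ ∑ j ∈ Finset.range (N + 1), (1:ℝ≥0∞) := by
          apply Finset.sum_le_sum
          intro j _
          exact indicator_le_self' (fun _ _ => zero_le_one) x
      _ = ((N + 1 : ℕ) : ℝ≥0∞) := by simp
      _ = ENNReal.ofReal ((N + 1 : ℕ) : ℝ) := by rw [ENNReal.ofReal_natCast]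
      _ ≤ _ := by
          apply ENNReal.ofReal_le_ofReal
          have : (N:ℝ) ≤ (|x| + |s|) / r := Nat.floor_le (by positivity)
          push_cast
          rw [add_div] at this
          linarith
  rw [h2]
  have : IsFiniteMeasure (volume.restrict Ω) := ⟨by rwa [Measure.restrict_apply_univ]⟩
  have h5 : Integrable (fun x : ℝ => |x| / r + (|s| / r + 1)) (volume.restrict Ω) :=
    (hm.div_const r).add (integrable_const _)
  have h6 := h5.lintegral_lt_top
  exact (lt_of_le_of_lt (lintegral_mono h3) h6).ne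

lemma tau_small {Ω : Set ℝ} (h1 : volume Ω < ⊤)
    (hm : IntegrableOn (fun x : ℝ => |x|) Ω) {r : ℝ} (hr : 0 < r) {δ : ℝ≥0∞} (hδ : 0 < δ) :
    ∃ s0 : ℝ, ∀ s, s0 ≤ s → tau Ω r s ≤ δ := by
  have h2 := ENNReal.tendsto_sum_nat_add
    (fun j : ℕ => volume (Ω ∩ {x | 0 + r * j ≤ |x|})) (tau_fin h1 hm hr 0)
  obtain ⟨N, hN⟩ := (h2.eventually (ge_mem_nhds hδ)).exists
  refine ⟨r * N, fun s hs => (tau_anti Ω r hs).trans (le_trans (le_of_eq ?_) hN)⟩
  unfold tau
  congr 1
  funext j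
  congr 2
  ext x
  simp only [mem_ofPred_eq]
  push_cast
  rw [show r * (N:ℝ) + r * j = 0 + r * (j + N) by ring]

end Pool.Agent.T2H59.FM
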