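import Pool.Agent.T2H59.FM.FM1
import Pool.Agent.T2H59.FM.FM2

open MeasureTheory Set Filter Topology
open scoped ENNReal

namespace Pool.Agent.T2H59.FM

open Helper575.NP

variable {Ω : Set ℝ} {l l' : ℤ → ℝ}

/-- pair mass -/
noncomputable def DD (Ω : Set ℝ) (l l' : ℤ → ℝ) (a b : ℤ) : ℝ≥0∞ :=
  ∑' n : ℤ, ∑' m : ℤ, if n < a ∧ b ≤ m then gam Ω (l' m - l n) else 0

lemma DD_le (hΩ : MeasurableSet Ω) (h : Til Ω l) (h' : Til Ω l') (a b : ℤ) (z : ℝ) :
    DD Ω l l' a b ≤ (∑' n : ℤ, if n < a then volume (Sh Ω (l n) ∩ Ici z) else 0) +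
      ∑' m : ℤ, if b ≤ m then volume (Sh Ω (l' m) ∩ Iio z) else 0 := by
  have key : ∀ n m : ℤ, (if n < a ∧ b ≤ m then gam Ω (l' m - l n) else 0) ≤
      (if n < a then volume (Sh Ω (l' m) ∩ (Sh Ω (l n) ∩ Ici z)) else 0) +
      (if b ≤ m then volume (Sh Ω (l n) ∩ (Sh Ω (l' m) ∩ Iio z)) else 0) := by
    intro n m
    by_cases hn : n < a
    · by_cases hm : b ≤ m
      · simp only [hn, hm, and_self, if_true]
        rw [← vol_Sh_inter]
        refine le_trans (measure_mono ?_) (measure_union_le _ _)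
        rintro x ⟨hx, hx'⟩
        rcases le_or_gt z x with hz | hz
        · exact Or.inl ⟨hx', hx, hz⟩
        · exact Or.inr ⟨hx, hx', hz⟩
      · simp [hm]
    · simp [hn]
  calc DD Ω l l' a b ≤ ∑' n : ℤ, ∑' m : ℤ,
      ((if n < a then volume (Sh Ω (l' m) ∩ (Sh Ω (l n) ∩ Ici z)) else 0) +
      (if b ≤ m then volume (Sh Ω (l n) ∩ (Sh Ω (l' m) ∩ Iio z)) else 0)) :=
        ENNReal.tsum_le_tsum fun n => ENNReal.tsum_le_tsum fun m => key n m
    _ = (∑' n : ℤ, ∑' m : ℤ, (if n < a then volume (Sh Ω (l' m) ∩ (Sh Ω (l n) ∩ Ici z)) else 0)) +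
        ∑' n : ℤ, ∑' m : ℤ, (if b ≤ m then volume (Sh Ω (l n) ∩ (Sh Ω (l' m) ∩ Iio z)) else 0) := by
        simp_rw [ENNReal.tsum_add]
    _ = _ := by
        congr 1
        · congr 1
          funext n
          by_cases hn : n < a
          · simp only [hn, if_true]
            exact h'.sum_inter hΩ ((Sh_meas hΩ _).inter measurableSet_Ici)
          · simp [hn]
        · rw [ENNReal.tsum_comm]
          congr 1
          funext m
          by_cases hm : b ≤ m
          · simp only [hm, if_true]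
            exact h.sum_inter hΩ ((Sh_meas hΩ _).inter measurableSet_Iio)
          · simp [hm]

lemma lgap {r : ℝ} (hgap : ∀ n, r ≤ l (n + 1) - l n) (a : ℤ) (j : ℕ) :
    l (a - j) ≤ l a - r * j := by
  induction j with
  | zero => simp
  | succ j ih =>
    have := hgap (a - (j + 1 : ℕ))
    rw [show a - ((j + 1 : ℕ) : ℤ) + 1 = a - j by push_cast; ring] at this
    push_cast at this ⊢
    linarith

lemma rgap {r : ℝ} (hgap : ∀ n, r ≤ l (n + 1) - l n) (a : ℤ) (j : ℕ) :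
    l a + r * j ≤ l (a + j) := by
  induction j with
  | zero => simp
  | succ j ih =>
    have := hgap (a + j)
    rw [show a + (j:ℤ) + 1 = a + ((j + 1 : ℕ) : ℤ) by push_cast; ring] at this
    push_cast at this ⊢
    linarith

lemma ltail {r : ℝ} (hgap : ∀ n, r ≤ l (n + 1) - l n) (a : ℤ) {z s : ℝ}
    (h : l (a - 1) ≤ z - s) :
    (∑' n : ℤ, if n < a then volume (Sh Ω (l n) ∩ Ici z) else 0) ≤ tau Ω r s := by
  have hi : Function.Injective (fun j : ℕ => a - 1 - (j:ℤ)) := fun x y hxy => by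
    simp only at hxy
    omega
  have hsup : Function.support (fun n : ℤ => if n < a then volume (Sh Ω (l n) ∩ Ici z) else 0) ⊆
      range (fun j : ℕ => a - 1 - (j:ℤ)) := by
    intro n hn
    have hna : n < a := by
      by_contra hcon
      exact hn (if_neg hcon)
    exact ⟨(a - 1 - n).toNat, by simp only; omega⟩
  rw [← hi.tsum_eq hsup]
  apply ENNReal.tsum_le_tsum
  intro j
  rw [if_pos (by omega), ← measure_preimage_add_right volume (l (a - 1 - j))]
  apply measure_mono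
  rintro y ⟨hy1, hy2⟩
  have hy1 : y + l (a - 1 - j) - l (a - 1 - j) ∈ Ω := hy1
  rw [add_sub_cancel_right] at hy1
  have hy2 : z ≤ y + l (a - 1 - j) := hy2
  refine ⟨hy1, ?_⟩
  show s + r * j ≤ |y|
  have h3 := lgap hgap (a - 1) j
  have := le_abs_self y
  linarith

lemma rtail {r : ℝ} (hgap : ∀ n, r ≤ l (n + 1) - l n) (b : ℤ) {z s : ℝ}
    (h : z + s ≤ l b) :
    (∑' m : ℤ, if b ≤ m then volume (Sh Ω (l m) ∩ Iio z) else 0) ≤ tau Ω r s := by
  have hi : Function.Injective (fun j : ℕ => b + (j:ℤ)) := fun x y hxy => by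
    simp only at hxy
    omega
  have hsup : Function.support (fun m : ℤ => if b ≤ m then volume (Sh Ω (l m) ∩ Iio z) else 0) ⊆
      range (fun j : ℕ => b + (j:ℤ)) := by
    intro n hn
    have hna : b ≤ n := by
      by_contra hcon
      exact hn (if_neg hcon)
    exact ⟨(n - b).toNat, by simp only; omega⟩
  rw [← hi.tsum_eq hsup]
  apply ENNReal.tsum_le_tsum
  intro j
  rw [if_pos (by omega), ← measure_preimage_add_right volume (l (b + j))]
  apply measure_mono
  rintro y ⟨hy1, hy2⟩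
  have hy1 : y + l (b + j) - l (b + j) ∈ Ω := hy1
  rw [add_sub_cancel_right] at hy1
  have hy2 : y + l (b + j) < z := hy2
  refine ⟨hy1, ?_⟩
  show s + r * j ≤ |y|
  have h3 := rgap hgap b j
  have := neg_abs_le y
  linarith

lemma DD_fin (hΩ : MeasurableSet Ω) (h1 : volume Ω < ⊤)
    (hm : IntegrableOn (fun x : ℝ => |x|) Ω) {r : ℝ} (hr : 0 < r)
    (h : Til Ω l) (h' : Til Ω l') (hgap : ∀ n, r ≤ l (n + 1) - l n)
    (hgap' : ∀ n, r ≤ l' (n + 1) - l' n) (a b : ℤ) : DD Ω l l' a b ≠ ⊤ := by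
  have h2 := DD_le hΩ h h' a b 0
  have h3 := ltail (Ω := Ω) hgap a (z := 0) (s := -l (a - 1)) (by linarith)
  have h4 := rtail (Ω := Ω) hgap' b (z := 0) (s := l' b) (by linarith)
  exact ne_top_of_le_ne_top (ENNReal.add_ne_top.2 ⟨tau_fin h1 hm hr _, tau_fin h1 hm hr _⟩)
    (h2.trans (add_le_add h3 h4))

/-- translation modulus -/
noncomputable def om (Ω : Set ℝ) (s : ℝ) : ℝ≥0∞ := volume (Ω \ Sh Ω s)

lemma om_tendsto (hΩ : MeasurableSet Ω) (h1 : volume Ω < ⊤) :
    Tendsto (om Ω) (𝓝 0) (𝓝 0) := by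
  let F : C(ℝ × ℝ, ℝ) := ⟨fun q => q.2 - q.1, by fun_prop⟩
  have hF : Continuous (fun s : ℝ => F.curry s) := F.curry.continuous
  have h2 : Tendsto (fun s : ℝ => F.curry s) (𝓝 0) (𝓝 (F.curry 0)) := hF.tendsto 0
  have hmp : ∀ s : ℝ, MeasurePreserving (F.curry s) (volume : Measure ℝ) volume := by
    intro s
    have := measurePreserving_sub_right (volume : Measure ℝ) s
    exact this
  have h3 := tendsto_measure_symmDiff_preimage_nhds_zero (μ := volume) (ν := volume) (s := Ω) h2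
    (Eventually.of_forall hmp) (hmp 0) hΩ.nullMeasurableSet h1.ne
  refine tendsto_of_tendsto_of_tendsto_of_le_of_le tendsto_const_nhds h3 (fun _ => zero_le) ?_
  intro s
  apply measure_mono
  rintro x ⟨hx, hx'⟩
  right
  refine ⟨?_, fun hcon => hx' hcon⟩
  show x - 0 ∈ Ω
  rwa [sub_zero]

lemma vol_diff_sh (Ω : Set ℝ) (s t : ℝ) : volume (Sh Ω s \ Sh Ω t) = om Ω (t - s) := by
  unfold om
  rw [← measure_preimage_add_right volume s (Sh Ω s \ Sh Ω t)]
  congr 1
  ext y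
  show (y + s - s ∈ Ω ∧ ¬ (y + s - t ∈ Ω)) ↔ (y ∈ Ω ∧ ¬ (y - (t - s) ∈ Ω))
  rw [add_sub_cancel_right, show y + s - t = y - (t - s) by ring]

lemma row_om (hΩ : MeasurableSet Ω) (h1 : volume Ω < ⊤) (h' : Til Ω l') {n a : ℤ} (hn : n < a) :
    (∑' m : ℤ, if a ≤ m then gam Ω (l' m - l n) else 0) ≤ om Ω (l' n - l n) := by
  have key : ∀ m : ℤ, (if a ≤ m then gam Ω (l' m - l n) else 0) ≤
      volume (Sh Ω (l' m) ∩ (Sh Ω (l n) \ Sh Ω (l' n))) := by
    intro m
    by_cases hm : a ≤ m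
    · rw [if_pos hm, ← vol_Sh_inter]
      have h0 : volume (Sh Ω (l' n) ∩ Sh Ω (l' m)) = 0 := by
        rw [vol_Sh_inter]
        exact h'.disj hΩ h1 (by omega)
      have h2 : volume (Sh Ω (l n) ∩ Sh Ω (l' m)) ≤
          volume (Sh Ω (l' m) ∩ (Sh Ω (l n) \ Sh Ω (l' n))) +
          volume (Sh Ω (l' n) ∩ Sh Ω (l' m)) := by
        refine le_trans (measure_mono ?_) (measure_union_le _ _)
        rintro x ⟨hx, hx'⟩
        by_cases hx2 : x ∈ Sh Ω (l' n)
        · exact Or.inr ⟨hx2, hx'⟩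
        · exact Or.inl ⟨hx', hx, hx2⟩
      rwa [h0, add_zero] at h2
    · rw [if_neg hm]
      exact zero_le
  refine (ENNReal.tsum_le_tsum key).trans ?_
  rw [h'.sum_inter hΩ ((Sh_meas hΩ _).diff (Sh_meas hΩ _)), vol_diff_sh]

lemma DD_split (hΩ : MeasurableSet Ω) (h1 : volume Ω < ⊤) (h' : Til Ω l') (a : ℤ) (J : ℕ) :
    DD Ω l l' a a ≤ (∑ n ∈ Finset.Ico (a - J) a, om Ω (l' n - l n)) + DD Ω l l' (a - J) a := by
  have key : ∀ n : ℤ, (∑' m : ℤ, if n < a ∧ a ≤ m then gam Ω (l' m - l n) else 0) ≤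
      (if n ∈ Finset.Ico (a - J) a then om Ω (l' n - l n) else 0) +
      ∑' m : ℤ, if n < a - J ∧ a ≤ m then gam Ω (l' m - l n) else 0 := by
    intro n
    by_cases hn : n < a
    · by_cases hn2 : n < a - J
      · refine le_add_left (le_of_eq ?_)
        congr 1
        funext m
        simp [hn, hn2]
      · rw [if_pos (Finset.mem_Ico.2 ⟨by omega, hn⟩)]
        refine le_add_right ?_
        refine le_trans (le_of_eq ?_) (row_om hΩ h1 h' hn)
        congr 1
        funext m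
        simp [hn]
    · have : (∑' m : ℤ, if n < a ∧ a ≤ m then gam Ω (l' m - l n) else 0) = 0 := by
        simp [hn]
      rw [this]
      exact zero_le
  refine (ENNReal.tsum_le_tsum key).trans ?_
  rw [ENNReal.tsum_add]
  apply add_le_add _ (le_refl _)
  rw [tsum_eq_sum (s := Finset.Ico (a - J) a) (fun n hn => if_neg hn)]
  apply le_of_eq
  apply Finset.sum_congr rfl
  intro n hn
  rw [if_pos hn]

lemma DD_lim (hΩ : MeasurableSet Ω) (h1 : volume Ω < ⊤)
    (hm : IntegrableOn (fun x : ℝ => |x|) Ω) {r : ℝ} (hr : 0 < r)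
    (h : Til Ω l) (h' : Til Ω l') (hgap : ∀ n, r ≤ l (n + 1) - l n)
    (hgap' : ∀ n, r ≤ l' (n + 1) - l' n) (hlim : Tendsto (fun n => l' n - l n) atBot (𝓝 0)) :
    Tendsto (fun a => DD Ω l l' a a) atBot (𝓝 0) := by
  rw [ENNReal.tendsto_nhds_zero]
  intro ε hε
  have he : 0 < ε / 3 := ENNReal.div_pos hε.ne' (by simp)
  obtain ⟨s0, hs0⟩ := tau_small h1 hm hr he
  obtain ⟨J, hJ⟩ := exists_nat_gt ((2 * s0 + 1) / r)
  have hJ2 : 2 * s0 + 1 < r * J := by
    rw [div_lt_iff₀ hr] at hJ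
    linarith
  have heJ : 0 < ε / 3 / J := ENNReal.div_pos he.ne' (by simp)
  have h2 : ∀ᶠ n in atBot, om Ω (l' n - l n) ≤ ε / 3 / J :=
    ((om_tendsto hΩ h1).comp hlim).eventually (ge_mem_nhds heJ)
  have h3 : ∀ᶠ n in atBot, |l' n - l n| < 1 :=
    (tendsto_order.1 hlim.abs).2 1 (by simp)
  obtain ⟨N, hN⟩ := Filter.eventually_atBot.1 (h2.and h3)
  rw [Filter.eventually_atBot]
  refine ⟨N, fun a ha => ?_⟩
  refine (DD_split hΩ h1 h' a J).trans ?_
  have h4 : ∑ n ∈ Finset.Ico (a - J) a, om Ω (l' n - l n) ≤ ε / 3 := by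
    calc ∑ n ∈ Finset.Ico (a - J) a, om Ω (l' n - l n)
        ≤ (Finset.Ico (a - J) a).card • (ε / 3 / J) := by
          apply Finset.sum_le_card_nsmul
          intro n hn
          rw [Finset.mem_Ico] at hn
          exact (hN n (by omega)).1
      _ = J * (ε / 3 / J) := by
          rw [Int.card_Ico, nsmul_eq_mul]
          congr 2
          omega
      _ ≤ ε / 3 := ENNReal.mul_div_le
  have h5 : DD Ω l l' (a - J) a ≤ ε / 3 + ε / 3 := by
    refine (DD_le hΩ h h' (a - J) a (l' a - s0)).trans (add_le_add ?_ ?_)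
    · refine (ltail hgap (a - J) (s := s0) ?_).trans (hs0 s0 le_rfl)
      have h6 := lgap hgap a (J + 1)
      have h7 := (hN a ha).2
      rw [abs_lt] at h7
      rw [show a - (J:ℤ) - 1 = a - ((J + 1 : ℕ) : ℤ) by push_cast; ring]
      push_cast at h6 ⊢
      nlinarith [h7.1]
    · exact (rtail hgap' a (s := s0) (by linarith)).trans (hs0 s0 le_rfl)
  calc _ ≤ ε / 3 + (ε / 3 + ε / 3) := add_le_add h4 h5
    _ = ε := by rw [← add_assoc, ENNReal.add_thirds]

end Pool.Agent.T2H59.FM
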