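import Pool.Agent.T2H59.FM.FM3

open MeasureTheory Set Filter Topology
open scoped ENNReal

namespace Pool.Agent.T2H59.FM

open Helper575.NP

variable {Ω : Set ℝ} {l l' : ℤ → ℝ}

/-- the pairing between two tilings -/
noncomputable def kk (Ω : Set ℝ) (l l' : ℤ → ℝ) (n m : ℤ) : ℝ := KR Ω (l' m - l n)

/-- straddling mass as a function on pairs -/
noncomputable def EE (Ω : Set ℝ) (l l' : ℤ → ℝ) (a b : ℤ) (p : ℤ × ℤ) : ℝ≥0∞ :=
  (if p.1 < a ∧ b ≤ p.2 then gam Ω (l' p.2 - l p.1) else 0) +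
    (if p.2 < b ∧ a ≤ p.1 then gam Ω (l p.1 - l' p.2) else 0)

lemma tsum_EE (a b : ℤ) : ∑' p, EE Ω l l' a b p = DD Ω l l' a b + DD Ω l' l b a := by
  unfold EE
  rw [ENNReal.tsum_add]
  congr 1
  · exact ENNReal.tsum_prod (f := fun n m => if n < a ∧ b ≤ m then gam Ω (l' m - l n) else 0)
  · rw [ENNReal.tsum_prod (f := fun n m => if m < b ∧ a ≤ n then gam Ω (l n - l' m) else 0),
      ENNReal.tsum_comm]
    rfl

lemma cf_kk_le (h1 : volume Ω < ⊤) (a b : ℤ) (p : ℤ × ℤ) :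
    ‖cf a b p * kk Ω l l' p.1 p.2‖ ≤ 4 * (EE Ω l l' a b p).toReal := by
  have h2 := KR_abs h1 (l' p.2 - l p.1)
  have h3 : 0 ≤ (EE Ω l l' a b p).toReal := ENNReal.toReal_nonneg
  rw [norm_mul, Real.norm_eq_abs, Real.norm_eq_abs]
  unfold kk cf EE
  by_cases hn : p.1 < a
  · by_cases hm : p.2 < b
    · simp [hn, hm]
    · simp [hn, hm, not_lt.1 hm]
      exact h2
  · by_cases hm : p.2 < b
    · simp [hn, hm, not_lt.1 hn]
      rw [gam_comm]
      exact h2
    · simp [hn, hm]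

section
variable (hΩ : MeasurableSet Ω) (h1 : volume Ω < ⊤)
    (hm : IntegrableOn (fun x : ℝ => |x|) Ω) {r : ℝ} (hr : 0 < r)
    (h : Til Ω l) (h' : Til Ω l') (hgap : ∀ n, r ≤ l (n + 1) - l n)
    (hgap' : ∀ n, r ≤ l' (n + 1) - l' n)
include hΩ h1 hm hr h h' hgap hgap'

lemma EE_fin (a b : ℤ) : ∑' p, EE Ω l l' a b p ≠ ⊤ := by
  rw [tsum_EE]
  exact ENNReal.add_ne_top.2 ⟨DD_fin hΩ h1 hm hr h h' hgap hgap' a b,
    DD_fin hΩ h1 hm hr h' h hgap' hgap b a⟩

lemma kk_summable (a b : ℤ) : Summable (fun p : ℤ × ℤ => cf a b p * kk Ω l l' p.1 p.2) := by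
  have h2 := (ENNReal.summable_toReal (EE_fin hΩ h1 hm hr h h' hgap hgap' a b)).mul_left 4
  exact Summable.of_norm_bounded h2 (cf_kk_le h1 a b)

lemma kk_bound (a b : ℤ) : |∑' p : ℤ × ℤ, cf a b p * kk Ω l l' p.1 p.2| ≤
    4 * (DD Ω l l' a b + DD Ω l' l b a).toReal := by
  have hf := EE_fin hΩ h1 hm hr h h' hgap hgap' a b
  have h2 := (ENNReal.summable_toReal hf).mul_left 4
  have h3 := tsum_of_norm_bounded h2.hasSum (cf_kk_le (l := l) (l' := l') h1 a b)
  rw [tsum_mul_left, ← ENNReal.tsum_toReal_eq (ENNReal.ne_top_of_tsum_ne_top hf), tsum_EE] at h3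
  exact h3

lemma kk_zero (hlim : Tendsto (fun n => l' n - l n) atBot (𝓝 0)) (a b : ℤ) :
    ∑' p : ℤ × ℤ, cf a b p * kk Ω l l' p.1 p.2 = 0 := by
  have hrow : ∀ n, HasSum (fun m => kk Ω l l' n m) 0 := fun n => h'.sum_KR hΩ h1 (l n)
  have hcol : ∀ m, HasSum (fun n => kk Ω l l' n m) 0 := by
    intro m
    have h2 := (h.sum_KR hΩ h1 (l' m)).neg
    rw [neg_zero] at h2
    refine h2.congr_fun ?_
    intro n
    unfold kk
    rw [← KR_odd h1, neg_sub]
  have hs := kk_summable hΩ h1 hm hr h h' hgap hgap'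
  have hP := P_const hrow hcol hs
  rw [hP a b]
  have hl2 : Tendsto (fun n => l n - l' n) atBot (𝓝 0) := by
    have := hlim.neg
    rw [neg_zero] at this
    refine this.congr (fun n => ?_)
    ring
  have h2 := DD_lim hΩ h1 hm hr h h' hgap hgap' hlim
  have h3 := DD_lim hΩ h1 hm hr h' h hgap' hgap hl2
  have h4 := h2.add h3
  rw [add_zero] at h4
  have h5 := (ENNReal.tendsto_toReal ENNReal.zero_ne_top).comp h4
  rw [ENNReal.toReal_zero] at h5
  have h6 := h5.const_mul 4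
  rw [mul_zero] at h6
  have h7 : |∑' p : ℤ × ℤ, cf 0 0 p * kk Ω l l' p.1 p.2| ≤ 0 := by
    apply ge_of_tendsto h6
    refine Eventually.of_forall (fun c => ?_)
    rw [← hP c c]
    exact kk_bound hΩ h1 hm hr h h' hgap hgap' c c
  exact abs_eq_zero.1 (le_antisymm h7 (abs_nonneg _))

lemma gam_zero_of_lt (hlim : Tendsto (fun n => l' n - l n) atBot (𝓝 0)) (n m : ℤ)
    (hnm : l n < l' m) : gam Ω (l' m - l n) = 0 := by
  have hmono : StrictMono l := by
    apply strictMono_int_of_lt_succ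
    intro n
    have := hgap n
    linarith
  have hmono' : StrictMono l' := by
    apply strictMono_int_of_lt_succ
    intro n
    have := hgap' n
    linarith
  -- the cut
  obtain ⟨ub, hub1, hub2⟩ : ∃ ub : ℤ, l ub < l' m ∧ ∀ z, l z < l' m → z ≤ ub := by
    apply Int.exists_greatest_of_bdd
    · obtain ⟨J, hJ⟩ := exists_nat_gt ((l' m - l n) / r)
      rw [div_lt_iff₀ hr] at hJ
      refine ⟨n + J, fun z hz => ?_⟩
      by_contra hcon
      have h2 := rgap hgap n J
      have h3 := hmono.monotone (show n + J ≤ z by omega)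
      linarith
    · exact ⟨n, hnm⟩
  have hz := kk_zero hΩ h1 hm hr h h' hgap hgap' hlim (ub + 1) m
  have hs := kk_summable hΩ h1 hm hr h h' hgap hgap' (ub + 1) m
  have hcut : ∀ i, i < ub + 1 ↔ l i < l' m := by
    intro i
    constructor
    · intro hi
      exact lt_of_le_of_lt (hmono.monotone (show i ≤ ub by omega)) hub1
    · intro hi
      have := hub2 i hi
      omega
  have hnn : ∀ p : ℤ × ℤ, 0 ≤ cf (ub + 1) m p * kk Ω l l' p.1 p.2 := by
    rintro ⟨i, j⟩
    unfold cf kk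
    simp only [hcut i]
    by_cases hi : l i < l' m
    · by_cases hj : j < m
      · simp [hi, hj]
      · simp only [hi, hj, if_true, if_false, sub_zero, one_mul]
        apply KR_nonneg hΩ
        have := hmono'.monotone (not_lt.1 hj)
        linarith
    · by_cases hj : j < m
      · simp only [hi, hj, if_true, if_false, zero_sub, neg_mul, one_mul]
        rw [← KR_odd h1]
        apply KR_nonneg hΩ
        have := hmono'.monotone hj.le
        linarith [not_lt.1 hi]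
      · simp [hi, hj]
  have h2 := hs.hasSum
  rw [hz] at h2
  have h3 := (hasSum_zero_iff_of_nonneg hnn).1 h2
  have h4 := congrFun h3 (n, m)
  have h5 : n < ub + 1 := (hcut n).2 hnm
  simp only [cf, kk, h5, lt_self_iff_false, if_true, if_false, sub_zero, one_mul,
    Pi.zero_apply] at h4
  exact KR_zero h1 (sub_pos.2 hnm) h4

end

theorem nla (hΩ : MeasurableSet Ω) (h0 : 0 < volume Ω) (h1 : volume Ω < ⊤)
    (hm : IntegrableOn (fun x : ℝ => |x|) Ω) {r : ℝ} (hr : 0 < r)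
    (h : Til Ω l) (h' : Til Ω l') (hgap : ∀ n, r ≤ l (n + 1) - l n)
    (hgap' : ∀ n, r ≤ l' (n + 1) - l' n)
    (hlim : Tendsto (fun n => l' n - l n) atBot (𝓝 0)) : l = l' := by
  have hl2 : Tendsto (fun n => l n - l' n) atBot (𝓝 0) := by
    have := hlim.neg
    rw [neg_zero] at this
    refine this.congr (fun n => ?_)
    ring
  have hg : ∀ n m, l n ≠ l' m → gam Ω (l' m - l n) = 0 := by
    intro n m hne
    rcases lt_or_gt_of_ne hne with hlt | hlt
    · exact gam_zero_of_lt hΩ h1 hm hr h h' hgap hgap' hlim n m hlt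
    · rw [gam_comm]
      exact gam_zero_of_lt hΩ h1 hm hr h' h hgap' hgap hl2 m n hlt
  have hsub1 : ∀ m, ∃ n, l n = l' m := by
    intro m
    by_contra hcon
    push Not at hcon
    have h2 := h.sum_gam hΩ (l' m)
    have h3 : ∀ n, gam Ω (l n - l' m) = 0 := fun n => by
      rw [gam_comm]; exact hg n m (hcon n)
    simp only [h3, tsum_zero] at h2
    exact h0.ne h2
  have hsub2 : ∀ n, ∃ m, l' m = l n := by
    intro n
    by_contra hcon
    push Not at hcon
    have h2 := h'.sum_gam hΩ (l n)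
    have h3 : ∀ m, gam Ω (l' m - l n) = 0 := fun m => hg n m (fun he => hcon m he.symm)
    simp only [h3, tsum_zero] at h2
    exact h0.ne h2
  have hmono : StrictMono l := by
    apply strictMono_int_of_lt_succ
    intro n
    have := hgap n
    linarith
  have hmono' : StrictMono l' := by
    apply strictMono_int_of_lt_succ
    intro n
    have := hgap' n
    linarith
  apply range_inj hr hmono hmono' hgap hlim
  apply Subset.antisymm
  · rintro x ⟨n, rfl⟩
    obtain ⟨m, hm⟩ := hsub2 n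
    exact ⟨m, hm⟩
  · rintro x ⟨n, rfl⟩
    obtain ⟨m, hm⟩ := hsub1 n
    exact ⟨m, hm⟩

theorem main (hΩ : MeasurableSet Ω) (h0 : 0 < volume Ω) (h1 : volume Ω < ⊤)
    (hm : IntegrableOn (fun x : ℝ => |x|) Ω) :
    (∀ Λ : Set ℝ, Λ.Countable → T1 Ω Λ → PS Λ) ∧
      {Λ : Set ℝ | (Λ.Countable ∧ T1 Ω Λ) ∧ 0 ∈ Λ}.Finite := by
  apply core hΩ h0 h1
  intro l l' hl hl' hT hT' hlim
  obtain ⟨x0, w, hd⟩ := dens_of hΩ h0 h1
  refine nla hΩ h0 h1 hm hd.wpos (Til_of_T1 hl.injective hT) (Til_of_T1 hl'.injective hT')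
    ?_ ?_ hlim
  · intro n
    exact sep_lt hΩ h1 hd hT ⟨n, rfl⟩ ⟨n + 1, rfl⟩ (hl (by omega))
  · intro n
    exact sep_lt hΩ h1 hd hT' ⟨n, rfl⟩ ⟨n + 1, rfl⟩ (hl' (by omega))

end Pool.Agent.T2H59.FM
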